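import Mathlib

/-!
# Two disjoint copies of the Heawood graph

Points and lines of the Fano plane are the elements of `ZMod 7`; the point `x` is on the line `y` if
`x - y ∈ {1, 2, 4}`.
-/

set_option autoImplicit false

namespace Pool.Agent.V1163.TwoFano

/-- incidence of points and lines of the Fano plane -/
def I (x y : ZMod 7) : Prop := x - y = 1 ∨ x - y = 2 ∨ x - y = 4

instance (x y : ZMod 7) : Decidable (I x y) := by
  unfold I
  infer_instance

theorem line_ex : ∀ x x' : ZMod 7, ∃ y, I x y ∧ I x' y := by decide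

theorem line_unique : ∀ x x' y y' : ZMod 7, x ≠ x' → I x y → I x' y → I x y' → I x' y' → y = y' := by
  decide

theorem two_off : ∀ x y : ZMod 7, I x y → ∃ m p q, I x m ∧ I p m ∧ I q m ∧ p ≠ q ∧ ¬ I p y ∧
    ¬ I q y := by
  decide

theorem two_on : ∀ y : ZMod 7, ∃ p q, I p y ∧ I q y ∧ p ≠ q := by decide

theorem pt_on : ∀ y : ZMod 7, ∃ p, I p y := by decide

theorem other_edge : I 1 0 ∧ I 2 0 := by decide

/-- no fold on a single copy -/
theorem core (α β : ZMod 7 → ZMod 7) (hI : ∀ x y, I x y → I (α x) (β y))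
    (hα : ∀ x, α (α x) = x) (P Q : ZMod 7 → Prop)
    (hcl : ∀ x y, I x y → α x ≠ x → β y ≠ y → (P x ↔ Q y))
    (hsw : ∀ x, α x ≠ x → (P x ↔ ¬ P (α x))) :
    (∀ x, α x = x) ∧ ∀ y, β y = y := by
  have hinj : ∀ x x', α x = α x' → x = x' := fun x x' h => by
    have := congrArg α h
    rwa [hα, hα] at this
  -- if two points of a line are fixed, then the line is fixed
  have hfix : ∀ y p q, I p y → I q y → p ≠ q → α p = p → α q = q → β y = y := by
    intro y p q hp hq hpq h1 h2
    have h3 := hI p y hp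
    have h4 := hI q y hq
    rw [h1] at h3
    rw [h2] at h4
    exact line_unique p q _ _ hpq h3 h4 hp hq
  have hpts : ∀ x, α x = x := by
    intro x
    by_contra hx
    obtain ⟨l, hxl, hyl⟩ := line_ex x (α x)
    -- there is a moved point off `l`
    have hp : ∃ p, ¬ I p l ∧ α p ≠ p := by
      by_contra hno
      push Not at hno
      obtain ⟨m, p, q, hxm, hpm, hqm, hpq, hpl, hql⟩ := two_off x l hxl
      have hm := hfix m p q hpm hqm hpq (hno p hpl) (hno q hql)
      have h5 := hI x m hxm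
      rw [hm] at h5
      have : m = l := line_unique x (α x) _ _ (Ne.symm hx) hxm h5 hxl hyl
      rw [this] at hpm
      exact hpl hpm
    obtain ⟨p, hpl, hpm⟩ := hp
    obtain ⟨a, hxa, hpa⟩ := line_ex x p
    obtain ⟨b, hyb, hpb⟩ := line_ex (α x) p
    have ha : β a ≠ a := by
      intro h
      have h5 := hI x a hxa
      rw [h] at h5
      have : a = l := line_unique x (α x) _ _ (Ne.symm hx) hxa h5 hxl hyl
      rw [this] at hpa
      exact hpl hpa
    have hb : β b ≠ b := by
      intro h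
      have h5 := hI (α x) b hyb
      rw [h, hα] at h5
      have : b = l := line_unique x (α x) _ _ (Ne.symm hx) h5 hyb hxl hyl
      rw [this] at hpb
      exact hpl hpb
    have hy : α (α x) ≠ α x := fun h => hx (hinj _ _ h)
    have e1 := hcl x a hxa hx ha
    have e2 := hcl p a hpa hpm ha
    have e3 := hcl p b hpb hpm hb
    have e4 := hcl (α x) b hyb hy hb
    have e5 := hsw x hx
    tauto
  refine ⟨hpts, fun y => ?_⟩
  obtain ⟨p, q, hp, hq, hpq⟩ := two_on y
  exact hfix y p q hp hq hpq (hpts p) (hpts q)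

/-- the edges of two disjoint copies of the Heawood graph -/
def E (a b : Bool × ZMod 7) : Prop := a.1 = b.1 ∧ I a.2 b.2

/-- all folds on the two copies swap the copies -/
theorem two_core (α β : Bool × ZMod 7 → Bool × ZMod 7) (hE : ∀ a b, E a b → E (α a) (β b))
    (hα : ∀ a, α (α a) = a) (P Q : Bool × ZMod 7 → Prop)
    (hcl : ∀ a b, E a b → α a ≠ a → β b ≠ b → (P a ↔ Q b))
    (hsw : ∀ a, α a ≠ a → (P a ↔ ¬ P (α a))) :
    ((∀ a, α a = a) ∧ ∀ b, β b = b) ∨
    ((∀ a, (α a).1 ≠ a.1) ∧ (∀ b, (β b).1 ≠ b.1) ∧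
      ∃ c : Bool, (∀ a, P a ↔ a.1 = c) ∧ ∀ b, Q b ↔ b.1 = c) := by
  -- preserving the copy is constant on each copy
  have hr : ∀ a b, E a b → ((α a).1 = a.1 ↔ (β b).1 = b.1) := by
    intro a b h
    have h2 := hE a b h
    rw [h.1, h2.1]
  have hrA : ∀ (i : Bool) (x x' : ZMod 7), ((α (i, x)).1 = i ↔ (α (i, x')).1 = i) := by
    intro i x x'
    obtain ⟨y, h1, h2⟩ := line_ex x x'
    exact (hr (i, x) (i, y) ⟨rfl, h1⟩).trans (hr (i, x') (i, y) ⟨rfl, h2⟩).symm
  have hrB : ∀ (i : Bool) (x y : ZMod 7), ((β (i, y)).1 = i ↔ (α (i, x)).1 = i) := by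
    intro i x y
    obtain ⟨x', h1⟩ := pt_on y
    exact (hr (i, x') (i, y) ⟨rfl, h1⟩).symm.trans (hrA i x' x)
  -- a preserved copy is fixed
  have hpres : ∀ i : Bool, (α (i, 0)).1 = i →
      (∀ x, α (i, x) = (i, x)) ∧ ∀ y, β (i, y) = (i, y) := by
    intro i hi
    have h1 : ∀ x, α (i, x) = (i, (α (i, x)).2) := fun x =>
      Prod.ext ((hrA i 0 x).1 hi) rfl
    have h2 : ∀ y, β (i, y) = (i, (β (i, y)).2) := fun y =>
      Prod.ext ((hrB i 0 y).2 hi) rfl
    have h1' : ∀ x, (α (i, x)).2 ≠ x → α (i, x) ≠ (i, x) := fun x hx h => hx (by rw [h])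
    have h2' : ∀ y, (β (i, y)).2 ≠ y → β (i, y) ≠ (i, y) := fun y hy h => hy (by rw [h])
    obtain ⟨c1, c2⟩ := core (fun x => (α (i, x)).2) (fun y => (β (i, y)).2)
      (fun x y hxy => (hE (i, x) (i, y) ⟨rfl, hxy⟩).2)
      (fun x => by
        show (α (i, (α (i, x)).2)).2 = x
        rw [← h1 x, hα])
      (fun x => P (i, x)) (fun y => Q (i, y))
      (fun x y hxy hx hy => hcl (i, x) (i, y) ⟨rfl, hxy⟩ (h1' x hx) (h2' y hy))
      (fun x hx => by
        show P (i, x) ↔ ¬ P (i, (α (i, x)).2)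
        rw [← h1 x]
        exact hsw (i, x) (h1' x hx))
    refine ⟨fun x => ?_, fun y => ?_⟩
    · rw [h1 x]
      exact Prod.ext rfl (c1 x)
    · rw [h2 y]
      exact Prod.ext rfl (c2 y)
  -- if one copy is preserved, so is the other
  have hboth : ∀ i : Bool, (α (i, 0)).1 = i → (α (!i, 0)).1 = !i := by
    intro i hi
    by_contra hne
    have h3 : (α (!i, 0)).1 = i := by
      revert hne
      cases (α (!i, 0)).1 <;> cases i <;> simp
    have h4 : α (!i, 0) = (i, (α (!i, 0)).2) := Prod.ext h3 rfl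
    have h5 := (hpres i hi).1 (α (!i, 0)).2
    rw [← h4, hα] at h5
    have h6 := congrArg Prod.fst h5
    simp only at h6
    rw [h3] at h6
    revert h6
    cases i <;> simp
  by_cases h0 : (α (false, 0)).1 = false
  · left
    have h1 : (α (true, 0)).1 = true := hboth false h0
    constructor
    · rintro ⟨i, x⟩
      cases i
      · exact (hpres false h0).1 x
      · exact (hpres true h1).1 x
    · rintro ⟨i, y⟩
      cases i
      · exact (hpres false h0).2 y
      · exact (hpres true h1).2 y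
  · right
    have h1 : ¬ (α (true, 0)).1 = true := fun h => h0 (hboth true h)
    have hA : ∀ a, (α a).1 ≠ a.1 := by
      rintro ⟨i, x⟩ h
      have := (hrA i x 0).1 h
      cases i
      · exact h0 this
      · exact h1 this
    have hB : ∀ b, (β b).1 ≠ b.1 := by
      rintro ⟨i, y⟩ h
      have := (hrB i 0 y).1 h
      cases i
      · exact h0 this
      · exact h1 this
    refine ⟨hA, hB, ?_⟩
    have hmA : ∀ a, α a ≠ a := fun a h => hA a (by rw [h])
    have hmB : ∀ b, β b ≠ b := fun b h => hB b (by rw [h])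
    have hPP : ∀ (i : Bool) (x x' : ZMod 7), (P (i, x) ↔ P (i, x')) := by
      intro i x x'
      obtain ⟨y, h1, h2⟩ := line_ex x x'
      exact (hcl (i, x) (i, y) ⟨rfl, h1⟩ (hmA _) (hmB _)).trans
        (hcl (i, x') (i, y) ⟨rfl, h2⟩ (hmA _) (hmB _)).symm
    have hQP : ∀ (i : Bool) (x y : ZMod 7), (Q (i, y) ↔ P (i, x)) := by
      intro i x y
      obtain ⟨x', h1⟩ := pt_on y
      exact (hcl (i, x') (i, y) ⟨rfl, h1⟩ (hmA _) (hmB _)).symm.trans (hPP i x' x)
    have hopp : P (false, 0) ↔ ¬ P (true, 0) := by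
      rw [hsw (false, 0) (hmA _)]
      have h4 : α (false, 0) = (true, (α (false, 0)).2) := by
        refine Prod.ext ?_ rfl
        have := hA (false, 0)
        revert this
        cases (α (false, 0)).1 <;> simp
      rw [h4, hPP true (α (false, 0)).2 0]
    by_cases hP : P (false, 0)
    · refine ⟨false, ?_, ?_⟩
      · rintro ⟨i, x⟩
        rw [hPP i x 0]
        cases i
        · simp [hP]
        · simp [hopp.1 hP]
      · rintro ⟨i, y⟩
        rw [hQP i 0 y]
        cases i
        · simp [hP]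
        · simp [hopp.1 hP]
    · have hP' : P (true, 0) := by
        by_contra h
        exact hP (hopp.2 h)
      refine ⟨true, ?_, ?_⟩
      · rintro ⟨i, x⟩
        rw [hPP i x 0]
        cases i
        · simp [hP]
        · simp [hP']
      · rintro ⟨i, y⟩
        rw [hQP i 0 y]
        cases i
        · simp [hP]
        · simp [hP']

/-- the affine permutation `x ↦ u x + a` of `ZMod 7` -/
def aff (u w a : ZMod 7) (h : w * u = 1) : Equiv.Perm (ZMod 7) where
  toFun x := u * x + a
  invFun x := w * (x - a)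
  left_inv x := by
    linear_combination x * h
  right_inv x := by
    linear_combination (x - a) * h

theorem aff_apply (u w a : ZMod 7) (h : w * u = 1) (x : ZMod 7) : aff u w a h x = u * x + a := rfl

theorem aff_symm_apply (u w a : ZMod 7) (h : w * u = 1) (x : ZMod 7) :
    (aff u w a h).symm x = w * (x - a) := rfl

/-- a permutation of `ZMod 7` that preserves the Fano plane -/
def Good (g : Equiv.Perm (ZMod 7)) : Prop := ∀ x y, I (g x) (g y) ↔ I x y

theorem good_one : Good 1 := fun _ _ => Iff.rfl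

theorem good_symm (g : Equiv.Perm (ZMod 7)) (hg : Good g) (x y : ZMod 7) :
    I (g.symm x) (g.symm y) ↔ I x y := by
  rw [← hg (g.symm x) (g.symm y), Equiv.apply_symm_apply, Equiv.apply_symm_apply]

theorem exists_good (x y x' y' : ZMod 7) (h : I x y) (h' : I x' y') :
    ∃ g : Equiv.Perm (ZMod 7), Good g ∧ g x = x' ∧ g y = y' := by
  obtain ⟨u, w, h1, h2, h3⟩ := (by decide : ∀ d d' : ZMod 7, (d = 1 ∨ d = 2 ∨ d = 4) →
    (d' = 1 ∨ d' = 2 ∨ d' = 4) → ∃ u w : ZMod 7, (u = 1 ∨ u = 2 ∨ u = 4) ∧ w * u = 1 ∧ u * d = d')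
    (x - y) (x' - y') h h'
  refine ⟨aff u w (x' - u * x) h2, ?_, ?_, ?_⟩
  rotate_left
  · rw [aff_apply]
    ring
  · rw [aff_apply]
    linear_combination -h3
  intro p q
  rw [aff_apply, aff_apply]
  unfold I
  have e : u * p + (x' - u * x) - (u * q + (x' - u * x)) = u * (p - q) := by ring
  rw [e]
  exact (by decide : ∀ u d : ZMod 7, (u = 1 ∨ u = 2 ∨ u = 4) →
    ((u * d = 1 ∨ u * d = 2 ∨ u * d = 4) ↔ (d = 1 ∨ d = 2 ∨ d = 4))) u (p - q) h1

/-- the twisted swap of the two copies -/
def tw (g : Equiv.Perm (ZMod 7)) : Equiv.Perm (Bool × ZMod 7) where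
  toFun a := (!a.1, if a.1 then g.symm a.2 else g a.2)
  invFun a := (!a.1, if a.1 then g.symm a.2 else g a.2)
  left_inv a := by
    obtain ⟨i, x⟩ := a
    cases i <;> simp
  right_inv a := by
    obtain ⟨i, x⟩ := a
    cases i <;> simp

theorem tw_fst (g : Equiv.Perm (ZMod 7)) (a : Bool × ZMod 7) : (tw g a).1 = !a.1 := rfl

theorem tw_false (g : Equiv.Perm (ZMod 7)) (x : ZMod 7) : tw g (false, x) = (true, g x) := rfl

theorem tw_true (g : Equiv.Perm (ZMod 7)) (x : ZMod 7) : tw g (true, x) = (false, g.symm x) := rfl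

theorem tw_mul_self (g : Equiv.Perm (ZMod 7)) : tw g * tw g = 1 := by
  ext1 a
  exact (tw g).left_inv a

theorem tw_E (g : Equiv.Perm (ZMod 7)) (hg : Good g) (a b : Bool × ZMod 7) :
    E (tw g a) (tw g b) ↔ E a b := by
  obtain ⟨i, x⟩ := a
  obtain ⟨j, y⟩ := b
  cases i <;> cases j
  · rw [tw_false, tw_false]
    unfold E
    simp [hg x y]
  · rw [tw_false, tw_true]
    unfold E
    simp
  · rw [tw_false, tw_true]
    unfold E
    simp
  · rw [tw_true, tw_true]
    unfold E
    simp [good_symm g hg x y]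

end Pool.Agent.V1163.TwoFano
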